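import Pool.Agent.Q60.CF.Scale

/-!
# Base change of the hypersurfaces `T(x, y, z) = 1`
-/

set_option autoImplicit false

universe v w

namespace Pool.Agent.Q60.CF

open CategoryTheory Limits AlgebraicGeometry Pool.Agent.Y116.UV MvPolynomial
open Q54.HT (Occurs bcO specMap)
open scoped TensorProduct

section bc

variable {F K : Type} [Field F] [Field K] [Algebra F K]

/-- The base change of an affine scheme. -/
noncomputable def bcAff {A B : Type} [CommRing A] [Algebra F A] [CommRing B] [Algebra K B]
    (e : A ⊗[F] K ≃+* B) (he : ∀ x : K, e (1 ⊗ₜ x) = algebraMap K B x) :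
    bcO F K (aff F A) ≅ aff K B :=
  Over.isoMk ((pullbackSpecIso F A K) ≪≫ Scheme.Spec.mapIso (e.symm.toCommRingCatIso).op) (by
    have h1 : CommRingCat.ofHom (algebraMap K B) ≫ e.symm.toCommRingCatIso.hom =
        CommRingCat.ofHom
          ((Algebra.TensorProduct.includeRight : K →ₐ[F] A ⊗[F] K) : K →+* A ⊗[F] K) := by
      ext x
      change e.symm (algebraMap K B x) = 1 ⊗ₜ x
      rw [← he x, RingEquiv.symm_apply_apply]
    change ((pullbackSpecIso F A K).hom ≫ Spec.map e.symm.toCommRingCatIso.hom) ≫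
      Spec.map (CommRingCat.ofHom (algebraMap K B)) = pullback.snd _ _
    rw [Category.assoc, ← Spec.map_comp, h1]
    exact pullbackSpecIso_hom_snd F A K)

variable {σ : Type} {g : MvPolynomial σ F} {A : Type} [CommRing A] [Algebra F A]

/-- The ring of the hypersurface `g = 0`. -/
abbrev Qt {R : Type} [CommRing R] (g : MvPolynomial σ R) : Type :=
  MvPolynomial σ R ⧸ Ideal.span {g}

/-- The `F`-algebra `A` is presented by the generators `π` and the relation `g`. -/
structure IsQt (g : MvPolynomial σ F) (π : MvPolynomial σ F →ₐ[F] A) : Prop where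
  surj : Function.Surjective π
  ker : RingHom.ker π = Ideal.span {g}

/-- From the first factor. -/
noncomputable def fromA (K : Type) [Field K] [Algebra F K] {π : MvPolynomial σ F →ₐ[F] A}
    (h : IsQt g π) : A →ₐ[F] Qt (MvPolynomial.map (algebraMap F K) g) :=
  AlgHom.comp (Ideal.Quotient.liftₐ (RingHom.ker π)
    ((Ideal.Quotient.mkₐ F (Ideal.span {MvPolynomial.map (algebraMap F K) g})).comp
      (MvPolynomial.mapAlgHom (Algebra.ofId F K))) (by
      intro a ha
      have h2 : Ideal.span {g} ≤ RingHom.ker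
          ((Ideal.Quotient.mkₐ F (Ideal.span {MvPolynomial.map (algebraMap F K) g})).comp
            (MvPolynomial.mapAlgHom (Algebra.ofId F K))) := by
        rw [Ideal.span_le, Set.singleton_subset_iff]
        change Ideal.Quotient.mk (Ideal.span {MvPolynomial.map (algebraMap F K) g})
          (MvPolynomial.map (algebraMap F K) g) = 0
        exact Ideal.Quotient.eq_zero_iff_mem.2 (Ideal.mem_span_singleton_self _)
      rw [h.ker] at ha
      exact h2 ha))
    (Ideal.quotientKerAlgEquivOfSurjective h.surj).symm.toAlgHom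

lemma fromA_mk {π : MvPolynomial σ F →ₐ[F] A} (h : IsQt g π) (p : MvPolynomial σ F) :
    fromA K h (π p) = Ideal.Quotient.mk (Ideal.span {MvPolynomial.map (algebraMap F K) g})
      (MvPolynomial.map (algebraMap F K) p) := by
  have h1 : (Ideal.quotientKerAlgEquivOfSurjective h.surj).symm (π p) =
      Ideal.Quotient.mk (RingHom.ker π) p := by
    rw [AlgEquiv.symm_apply_eq]
    rfl
  rw [fromA, AlgHom.comp_apply, show (Ideal.quotientKerAlgEquivOfSurjective h.surj).symm.toAlgHom
    (π p) = Ideal.Quotient.mk (RingHom.ker π) p from h1]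
  rfl

/-- From the tensor product. -/
noncomputable def fromT (K : Type) [Field K] [Algebra F K] {π : MvPolynomial σ F →ₐ[F] A}
    (h : IsQt g π) : A ⊗[F] K →ₐ[F] Qt (MvPolynomial.map (algebraMap F K) g) :=
  Algebra.TensorProduct.productMap (fromA K h)
    (AlgHom.restrictScalars F (Algebra.ofId K (Qt (MvPolynomial.map (algebraMap F K) g))))

lemma fromT_mk {π : MvPolynomial σ F →ₐ[F] A} (h : IsQt g π) (p : MvPolynomial σ F) (x : K) :
    fromT K h (π p ⊗ₜ[F] x) =
      Ideal.Quotient.mk (Ideal.span {MvPolynomial.map (algebraMap F K) g})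
        (MvPolynomial.map (algebraMap F K) p) * algebraMap K _ x := by
  rw [fromT, Algebra.TensorProduct.productMap_apply_tmul, fromA_mk]
  rfl

/-- The inclusion of the second factor. -/
noncomputable def incR (A K : Type) [CommRing A] [Algebra F A] [Field K] [Algebra F K] :
    K →+* A ⊗[F] K := (Algebra.TensorProduct.includeRight : K →ₐ[F] A ⊗[F] K).toRingHom

lemma incR_apply (x : K) : incR (F := F) A K x = 1 ⊗ₜ x := rfl

/-- The ring homomorphism from the polynomials. -/
noncomputable def toP (K : Type) [Field K] [Algebra F K] (π : MvPolynomial σ F →ₐ[F] A) :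
    MvPolynomial σ K →+* A ⊗[F] K :=
  eval₂Hom (incR A K) fun v => π (X v) ⊗ₜ[F] 1

lemma toP_C (π : MvPolynomial σ F →ₐ[F] A) (x : K) : toP K π (C x) = 1 ⊗ₜ x := by
  rw [toP, eval₂Hom_C, incR_apply]

lemma toP_X (π : MvPolynomial σ F →ₐ[F] A) (v : σ) : toP K π (X v) = π (X v) ⊗ₜ[F] 1 := by
  rw [toP, eval₂Hom_X']

lemma toP_map (π : MvPolynomial σ F →ₐ[F] A) (p : MvPolynomial σ F) :
    toP K π (MvPolynomial.map (algebraMap F K) p) = π p ⊗ₜ[F] 1 := by
  induction p using MvPolynomial.induction_on with
  | C a =>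
    rw [map_C, toP_C, ← MvPolynomial.algebraMap_eq, AlgHom.commutes,
      Algebra.algebraMap_eq_smul_one, Algebra.algebraMap_eq_smul_one, TensorProduct.tmul_smul,
      TensorProduct.smul_tmul']
  | add p q hp hq => rw [map_add, map_add, hp, hq, map_add, TensorProduct.add_tmul]
  | mul_X p v hp =>
    rw [map_mul, map_mul, hp, map_X, map_mul, toP_X, Algebra.TensorProduct.tmul_mul_tmul, one_mul]

/-- To the tensor product. -/
noncomputable def toT (K : Type) [Field K] [Algebra F K] {π : MvPolynomial σ F →ₐ[F] A}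
    (h : IsQt g π) : Qt (MvPolynomial.map (algebraMap F K) g) →+* A ⊗[F] K :=
  Ideal.Quotient.lift _ (toP K π) (by
    intro a ha
    have h2 : Ideal.span {MvPolynomial.map (algebraMap F K) g} ≤ RingHom.ker (toP K π) := by
      rw [Ideal.span_le, Set.singleton_subset_iff]
      change toP K π (MvPolynomial.map (algebraMap F K) g) = 0
      rw [toP_map]
      have h1 : g ∈ RingHom.ker π := by
        rw [h.ker]
        exact Ideal.mem_span_singleton_self _
      rw [RingHom.mem_ker] at h1
      rw [h1, TensorProduct.zero_tmul]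
    exact h2 ha)

lemma toT_mk {π : MvPolynomial σ F →ₐ[F] A} (h : IsQt g π) (p : MvPolynomial σ K) :
    toT K h (Ideal.Quotient.mk (Ideal.span {MvPolynomial.map (algebraMap F K) g}) p) =
      toP K π p := rfl

lemma toT_fromT {π : MvPolynomial σ F →ₐ[F] A} (h : IsQt g π) (z : A ⊗[F] K) :
    toT K h (fromT K h z) = z := by
  induction z using TensorProduct.induction_on with
  | zero => rw [map_zero, map_zero]
  | add a b ha hb => rw [map_add, map_add, ha, hb]
  | tmul a x =>
    obtain ⟨p, rfl⟩ := h.surj a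
    rw [fromT_mk, map_mul, toT_mk, toP_map]
    have h1 : toT K h (algebraMap K (Qt (MvPolynomial.map (algebraMap F K) g)) x) = 1 ⊗ₜ[F] x :=
      toP_C π x
    rw [h1, Algebra.TensorProduct.tmul_mul_tmul, mul_one, one_mul]

lemma fromT_one {π : MvPolynomial σ F →ₐ[F] A} (h : IsQt g π) (x : K) :
    fromT K h (1 ⊗ₜ[F] x) = algebraMap K _ x := by
  have h1 := fromT_mk h 1 x
  rwa [map_one, map_one, map_one, one_mul] at h1

lemma fromT_toT {π : MvPolynomial σ F →ₐ[F] A} (h : IsQt g π)
    (z : Qt (MvPolynomial.map (algebraMap F K) g)) : fromT K h (toT K h z) = z := by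
  obtain ⟨p, rfl⟩ := Ideal.Quotient.mk_surjective z
  rw [toT_mk]
  induction p using MvPolynomial.induction_on with
  | C a =>
    rw [toP_C, fromT_one]
    rfl
  | add p q hp hq => rw [map_add, map_add, hp, hq, map_add]
  | mul_X p v hp =>
    rw [map_mul, map_mul, hp, map_mul, toP_X, fromT_mk, map_X, map_one, mul_one]

/-- The isomorphism. -/
noncomputable def tensorT (K : Type) [Field K] [Algebra F K] {π : MvPolynomial σ F →ₐ[F] A}
    (h : IsQt g π) : A ⊗[F] K ≃+* Qt (MvPolynomial.map (algebraMap F K) g) where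
  toFun := fromT K h
  invFun := toT K h
  left_inv := toT_fromT h
  right_inv := fromT_toT h
  map_mul' := map_mul (fromT K h)
  map_add' := map_add (fromT K h)

/-- The base change of the hypersurface `g = 0`. -/
noncomputable def bcQt (K : Type) [Field K] [Algebra F K] {π : MvPolynomial σ F →ₐ[F] A}
    (h : IsQt g π) :
    bcO F K (aff F A) ≅ aff K (Qt (MvPolynomial.map (algebraMap F K) g)) :=
  bcAff (tensorT K h) (fromT_one h)

/-- The tensor over `K`. -/
def mapT {α β γ : Type} (K : Type) [Field K] [Algebra F K] (T : α → β → γ → F) : α → β → γ → K :=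
  fun i j k => algebraMap F K (T i j k)

lemma map_tri {α β γ : Type} [Fintype α] [Fintype β] [Fintype γ] (T : α → β → γ → F) :
    MvPolynomial.map (algebraMap F K) (tri T - 1) = tri (mapT K T) - 1 := by
  simp only [tri, map_sub, map_one, map_sum, map_mul, map_X, map_C, mapT]

lemma isQt_hyp {α β γ : Type} [Fintype α] [Fintype β] [Fintype γ] (T : α → β → γ → F) :
    IsQt (tri T - 1) (Ideal.Quotient.mkₐ F (Ideal.span {tri T - 1})) :=
  ⟨Ideal.Quotient.mkₐ_surjective F _, Ideal.Quotient.mkₐ_ker F _⟩

/-- The base change of the hypersurface `T(x, y, z) = 1`. -/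
theorem bc_hypS {a b c : ℕ} (T : Fin a → Fin b → Fin c → F) :
    Nonempty (bcO F K (hypS T) ≅ hypS (mapT K T)) := by
  have h := bcQt K (isQt_hyp T)
  rw [map_tri] at h
  exact ⟨h⟩

end bc

end Pool.Agent.Q60.CF
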