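import Pool.Agent.Q60.CF.Mod
import Pool.Agent.Z125.UN.Sym

/-!
# Simple objects which occur in the homology of varieties of dimension at most `n` and trilinear
hypersurfaces with `n + 2` variables in one block
-/

set_option autoImplicit false

universe v w

namespace Pool.Agent.Q60.CF

open CategoryTheory Limits AlgebraicGeometry Pool.Agent.Y116.UV Pool.Agent.Z125.UN
open Q54.HT (Occurs)

variable {F : Type} [Field F] {𝓜 : Type w} [Category.{v} 𝓜] [Abelian 𝓜]
variable {h : ℤ → ℤ → Sch F → 𝓜} {S : 𝓜}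

/-- The varieties in whose homology the simple object does not occur. -/
theorem bnd_not_occurs (hh : IsBorelMoore h) (hS : Simple S)
    (h1 : ¬ Occurs h S (aff F F)) : Bnd True fun X : Sch F => ¬ Occurs h S X where
  iso hX e h2 h3 := h2 (occurs_iso hh hX e h3)
  total i j hX ht hZ hU := by
    rintro ⟨n, s, h2⟩
    obtain ⟨t, ht⟩ := hh.localization i j hX ht
    rcases h2.exact (ht n s).1 with h3 | h3
    · exact hZ ⟨n, s, h3⟩
    · exact hU ⟨n, s, h3⟩
  opened i j hX ht hZ hX' := by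
    rintro ⟨n, s, h2⟩
    obtain ⟨t, ht⟩ := hh.localization i j hX ht
    have h4 : s = s - 1 + 1 := by ring
    rw [h4] at h2
    rcases h2.exact (ht n (s - 1)).2.1 with h3 | h3
    · exact hX' ⟨n, s - 1 + 1, h3⟩
    · exact hZ ⟨n, s - 1, h3⟩
  closed i j hX ht hX' hU := by
    rintro ⟨n, s, h2⟩
    obtain ⟨t, ht⟩ := hh.localization i j hX ht
    rcases h2.exact (ht n s).2.2 with h3 | h3
    · exact hU ⟨n, s + 1, h3⟩
    · exact hX' ⟨n, s, h3⟩
  space n h2 := h1 (occurs_space hh n h2)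
  jouanolou A _ _ _ m f U j hj hr h2 := by
    rintro ⟨n, s, h3⟩
    obtain ⟨e⟩ := hh.bundle A m f U j hj hr n s
    exact h2 ⟨n + m - 1, s, h3.iso e⟩
  torus A _ _ _ h2 h3 := h2 (occurs_torus hh A h3)
  bundle A _ _ _ m f U j hj hr h2 := by
    rintro ⟨n, s, h3⟩
    obtain ⟨e⟩ := hh.bundle A m f U j hj hr (n - m + 1) s
    have h4 : n - (m : ℤ) + 1 + m - 1 = n := by ring
    rw [h4] at e
    exact h2 ⟨n - m + 1, s, h3.iso e.symm⟩

lemma occurs_jou (hh : IsBorelMoore h) {A : Type} [CommRing A] [Algebra F A]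
    [Algebra.FiniteType F A] {m : ℕ} (f : Fin m → A) :
    Occurs h S (aff F (Jou f)) ↔ Occurs h S (opn (aff F A) (neOpen F f)) := by
  constructor
  · rintro ⟨n, s, h3⟩
    obtain ⟨e⟩ := hh.bundle A m f (opn (aff F A) (neOpen F f)) (opnMap (aff F A) (neOpen F f))
      inferInstance (range_opnMap _ _) (n - m + 1) s
    have h4 : n - (m : ℤ) + 1 + m - 1 = n := by ring
    rw [h4] at e
    exact ⟨n - m + 1, s, h3.iso e.symm⟩
  · rintro ⟨n, s, h3⟩
    obtain ⟨e⟩ := hh.bundle A m f (opn (aff F A) (neOpen F f)) (opnMap (aff F A) (neOpen F f))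
      inferInstance (range_opnMap _ _) n s
    exact ⟨n + m - 1, s, h3.iso e⟩

/-- The tensor of format `(m + 1) × 1 × 1` with one entry `1` and the entries `0`. -/
def padT (F : Type) [Field F] (m : ℕ) : Fin (m + 1) → Fin 1 → Fin 1 → F :=
  fun i _ _ => if i = 0 then 1 else 0

lemma neOpen_pad (m : ℕ) : neOpen F (bl (padT F m)) = neOpen F (bl (oneT F)) := by
  ext x
  change (∃ l, bl (padT F m) l ∉ x.asIdeal) ↔ ∃ l, bl (oneT F) l ∉ x.asIdeal
  have h0 : bl (padT F m) 0 = bl (oneT F) 0 := by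
    rw [bl, bl]
    congr 1
  constructor
  · rintro ⟨l, hl⟩
    by_cases h1 : l = 0
    · subst h1
      exact ⟨0, by rwa [← h0]⟩
    · exfalso
      apply hl
      have h2 : bl (padT F m) l = 0 := by
        have h3 : padT F m l = 0 := by
          funext j k
          exact if_neg h1
        rw [bl, h3, map_zero]
      rw [h2]
      exact Ideal.zero_mem _
  · rintro ⟨l, hl⟩
    have h1 : l = 0 := Subsingleton.elim _ _
    subst h1
    exact ⟨0, by rwa [h0]⟩

/-- An object which occurs in the homology of the point occurs in that of a hypersurface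
`x y z_0 = 1`. -/
lemma occurs_pad (hh : IsBorelMoore h) (hS : Occurs h S (aff F F)) (m : ℕ) :
    ∃ T : Fin 1 → Fin 1 → Fin (m + 1) → F, (∀ i j k, T i j k = 0 ∨ T i j k = 1) ∧
      Occurs h S (hypS T) := by
  have h1 := occurs_one hh hS
  have h2 : Occurs h S (aff F (Jou (bl (oneT F)))) :=
    occurs_iso hh (ft_aff True) ⟨affIso (hypEquiv (oneT F))⟩ h1
  rw [occurs_jou hh, ← neOpen_pad m, ← occurs_jou hh] at h2
  have h3 : Occurs h S (aff F (Hyp (padT F m))) :=
    occurs_iso hh (ft_aff True) ⟨(affIso (hypEquiv (padT F m))).symm⟩ h2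
  have e : Hyp (padT F m) ≃ₐ[F] Hyp fun j k i => padT F m i j k :=
    (swapL (padT F m)).trans (swapR fun j i k => padT F m i j k)
  refine ⟨fun j k i => padT F m i j k, fun i j k => ?_,
    occurs_iso hh (ft_aff True) ⟨affIso e⟩ h3⟩
  change (if k = 0 then (1 : F) else 0) = 0 ∨ (if k = 0 then (1 : F) else 0) = 1
  split_ifs
  · exact Or.inr rfl
  · exact Or.inl rfl

/-- **Dimension and format.** -/
theorem occurs_dim [PerfectField F] (hh : IsBorelMoore h) (hS : Simple S) (n : ℕ) :
    (∃ X : Sch F, FT True X ∧ topologicalKrullDim X.left ≤ n ∧ Occurs h S X) ↔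
      ∃ (a b : ℕ) (T : Fin a → Fin b → Fin (n + 2) → F), Occurs h S (hypS T) := by
  by_cases h1 : Occurs h S (aff F F)
  · refine ⟨fun _ => ?_, fun _ => ?_⟩
    · obtain ⟨T, -, hT⟩ := occurs_pad hh h1 (n + 1)
      exact ⟨1, 1, T, hT⟩
    · refine ⟨aff F F, ft_aff True, ?_, h1⟩
      rw [topDim_aff, ringKrullDim_eq_zero_of_field]
      exact_mod_cast Nat.zero_le n
  · have h2 := dim_tri (bnd_not_occurs hh hS h1) n
    constructor
    · rintro ⟨X, hX, hn, h3⟩
      by_contra hcon
      push Not at hcon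
      exact h2.2 hcon X hX hn h3
    · rintro ⟨a, b, T, h3⟩
      by_contra hcon
      push Not at hcon
      exact h2.1 hcon a b T h3

/-- Smooth varieties are sufficient. -/
theorem occurs_smooth [PerfectField F] (hh : IsBorelMoore h) (hS : Simple S) (n : ℕ)
    (h1 : ∃ X : Sch F, FT True X ∧ topologicalKrullDim X.left ≤ n ∧ Occurs h S X) :
    ∃ X : Sch F, FT True X ∧ Smooth X.hom ∧ topologicalKrullDim X.left ≤ n ∧ Occurs h S X := by
  by_cases h2 : Occurs h S (aff F F)
  · refine ⟨aff F F, ft_aff True, smooth_aff inferInstance, ?_, h2⟩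
    rw [topDim_aff, ringKrullDim_eq_zero_of_field]
    exact_mod_cast Nat.zero_le n
  · obtain ⟨X, hX, hn, h3⟩ := h1
    by_contra hcon
    push Not at hcon
    exact dim_smooth (bnd_not_occurs hh hS h2) n hcon X hX hn h3

/-- A short block in any place. -/
theorem occurs_block [PerfectField F] (hh : IsBorelMoore h) (hS : Simple S) (n : ℕ) {a b c : ℕ}
    (T : Fin a → Fin b → Fin c → F) (hm : a ≤ n + 2 ∨ b ≤ n + 2 ∨ c ≤ n + 2)
    (hT : Occurs h S (hypS T)) :
    ∃ X : Sch F, FT True X ∧ topologicalKrullDim X.left ≤ n ∧ Occurs h S X := by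
  by_cases h1 : Occurs h S (aff F F)
  · refine ⟨aff F F, ft_aff True, ?_, h1⟩
    rw [topDim_aff, ringKrullDim_eq_zero_of_field]
    exact_mod_cast Nat.zero_le n
  · by_contra hcon
    push Not at hcon
    have hB := bnd_not_occurs hh hS h1
    have h2 : ∀ I : Ideal (MvPolynomial (Fin (n + 1)) F),
        ¬ Occurs h S (aff F (MvPolynomial (Fin (n + 1)) F ⧸ I)) :=
      dim_to_closed hB fun A _ _ _ hA => hcon _ (ft_aff True) (by rw [topDim_aff]; exact hA)
    exact of_block hB (fun a b c' hc' T => to_tri hB h2 a b c' hc' T) T hm hT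

end Pool.Agent.Q60.CF
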