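import Pool.Agent.Q60.CF.Mod
import Pool.Agent.Q56.GO.Flat

/-!
# Questions on geometric origin and trilinear hypersurfaces
-/

set_option autoImplicit false

namespace Pool.Agent.Q60.CF

open Q54.CU Q54.HT CategoryTheory AlgebraicGeometry Pool.Agent.Q187.FM Pool.Agent.Q56.GO
open Pool.Agent.Y116.UV

variable {Λ : Type} [Field Λ]

theorem irreducible_semisimple {G : Type} [Group G] {S : Rp Λ G} (h : S.Irreducible) :
    S.Semisimple := by
  intro A hA
  rcases h.2 A hA with rfl | rfl
  · exact ⟨⊤, fun _ _ _ => trivial, isCompl_bot_top⟩
  · refine ⟨⊥, fun g v hv => ?_, isCompl_top_bot⟩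
    rw [(Submodule.mem_bot Λ).1 hv, map_zero]
    exact Submodule.zero_mem _

/-- The generic point of the space `L` and homology: an extension field `K` of `F` (the function
field of `L`), an abelian category `R` (of representations of the Galois group of `K`, or of flat
bundles on dense open parts of `L`), the Borel-Moore homology `h` of the varieties over `K` with values
in `R`, and the relation `IsPart V S`: the object `S` of `R` is an irreducible constituent of the
restriction of `V` to the generic point. -/
structure Generic (D : Spaces Λ) (F : Type) [Field F] (L : D.Sp) where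
  K : Type
  [field : Field K]
  [algebra : Algebra F K]
  R : Type 1
  [cat : Category.{0} R]
  [abelian : Abelian R]
  h : ℤ → ℤ → SchO K → R
  IsPart : Rp Λ (D.Pi L) → R → Prop

attribute [instance] Generic.field Generic.algebra Generic.cat Generic.abelian

variable {D : Spaces Λ} {F : Type} [Field F] {L : D.Sp}

/-- The known facts: constituents are simple; the homology of the varieties `Y ⊗ K`, `Y` over `F`,
has the formal properties of Borel-Moore homology; models; an irreducible representation `V` with the
property assumed in the question is of geometric origin if and only if every constituent of its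
restriction to the generic point occurs in the homology of a variety over `K` (alterations,
resolution of singularities, semisimplicity). -/
structure Generic.Facts (G : Generic D F L) : Prop where
  simple : ∀ V S, G.IsPart V S → Simple S
  homology : IsBorelMoore fun n s (Y : Sch F) => G.h n s (bcO F G.K Y)
  models : HasModels F G.h
  geometric : ∀ V, D.qg L V → V.Irreducible →
    (D.geo L V ↔ ∀ S, G.IsPart V S → ∃ X : SchO G.K, IsVar X ∧ Occurs G.h S X)

/-- All constituents of all irreducible representations `V` of the fundamental group of `L` with the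
property assumed in the question occur in the homology of hypersurfaces `T(x, y, z) = 1`, `T` a
trilinear form with coefficients `0`, `1`, `t_1, …, t_n`. -/
def Generic.AllTrilinear (G : Generic D F L) {n : ℕ} (t : Fin n → F) : Prop :=
  ∀ V, D.qg L V → V.Irreducible → ∀ S, G.IsPart V S → Trilinear G.h t S

theorem irr_iff (G : Generic D F L) (hG : G.Facts) {n : ℕ} {t : Fin n → F} (ht : Generates t) :
    D.Irr L ↔ G.AllTrilinear t := by
  constructor
  · intro h V hV hirr S hS
    exact (occurs_iff hG.models hG.homology ht (hG.simple V S hS)).1
      ((hG.geometric V hV hirr).1 (h V hV hirr) S hS)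
  · intro h V hV hirr
    exact (hG.geometric V hV hirr).2 fun S hS =>
      (occurs_iff hG.models hG.homology ht (hG.simple V S hS)).2 (h V hV hirr S hS)

theorem irr_of_question (h : D.Question L) : D.Irr L := fun V hV hirr =>
  h V hV (irreducible_semisimple hirr)

/-- The question for a class of spaces which are, up to dense parts, finite etale over `L`. -/
theorem criterion (hs : D.Sums) (hc : D.Covers) (hf : D.Finite) {𝒴 : D.Sp → Prop} (hL : 𝒴 L)
    (ho : ∀ Y, 𝒴 Y → D.Over Y L) (G : Generic D F L) (hG : G.Facts) {n : ℕ} {t : Fin n → F}
    (ht : Generates t) : (∀ Y, 𝒴 Y → D.Question Y) ↔ G.AllTrilinear t :=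
  ⟨fun h => (irr_iff G hG ht).1 (irr_of_question (h L hL)), fun h Y hY =>
    question_of_over hs hc hf (ho Y hY) ((irr_iff G hG ht).2 h)⟩

/-- The same with a class of spaces `L`. -/
theorem criterion' (hs : D.Sums) (hc : D.Covers) (hf : D.Finite) {𝒴 ℒ : D.Sp → Prop}
    (hL : ∀ L, ℒ L → 𝒴 L) (ho : ∀ Y, 𝒴 Y → ∃ L, ℒ L ∧ D.Over Y L)
    (G : ∀ L, Generic D F L) (hG : ∀ L, ℒ L → (G L).Facts) {n : ℕ} {t : Fin n → F}
    (ht : Generates t) :
    (∀ Y, 𝒴 Y → D.Question Y) ↔ ∀ L, ℒ L → (G L).AllTrilinear t := by
  constructor
  · intro h L h1
    exact (irr_iff (G L) (hG L h1) ht).1 (irr_of_question (h L (hL L h1)))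
  · intro h Y hY
    obtain ⟨L, h1, h2⟩ := ho Y hY
    exact question_of_over hs hc hf h2 ((irr_iff (G L) (hG L h1) ht).2 (h L h1))

end Pool.Agent.Q60.CF
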