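import Pool.Agent.Q60.CF.Occ
import Pool.Agent.Q54.HT.Rat
import Pool.Agent.Z125.UN.Dim2

/-!
# Fields of rational functions, base change, and trilinear hypersurfaces
-/

set_option autoImplicit false

universe v w

namespace Pool.Agent.Q60.CF

open CategoryTheory Limits AlgebraicGeometry Pool.Agent.Y116.UV
open Q54.CU (SchO IsVar)
open Q54.HT (Occurs bcO isVar_bcO)

/-- The field of rational functions in `t_1, …, t_n` with coefficients in `k`. -/
abbrev RatFun (n : ℕ) (k : Type) [Field k] : Type := FractionRing (MvPolynomial (Fin n) k)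

/-- The rational functions `t_1, …, t_n`. -/
noncomputable def tvar (n : ℕ) (k : Type) [Field k] (i : Fin n) : RatFun n k :=
  algebraMap (MvPolynomial (Fin n) k) (RatFun n k) (MvPolynomial.X i)

theorem generates_tvar (n : ℕ) {k : Type} [Field k] (hk : (⊥ : Subfield k) = ⊤) :
    Generates (tvar n k) := by
  rw [Generates, eq_top_iff]
  intro x _
  have h1 : ∀ p : MvPolynomial (Fin n) k, algebraMap (MvPolynomial (Fin n) k) (RatFun n k) p ∈
      Subfield.closure (Set.range (tvar n k)) := by
    intro p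
    induction p using MvPolynomial.induction_on with
    | C a =>
      have h2 : ∀ a : k, a ∈ (Subfield.closure (Set.range (tvar n k))).comap
          ((algebraMap (MvPolynomial (Fin n) k) (RatFun n k)).comp MvPolynomial.C) := by
        intro a
        have h3 : (⊥ : Subfield k) ≤ (Subfield.closure (Set.range (tvar n k))).comap
          ((algebraMap (MvPolynomial (Fin n) k) (RatFun n k)).comp MvPolynomial.C) := bot_le
        rw [hk] at h3
        exact h3 trivial
      exact h2 a
    | add p q hp hq => rw [map_add]; exact add_mem hp hq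
    | mul_X p i hp =>
      rw [map_mul]
      exact mul_mem hp (Subfield.subset_closure ⟨i, rfl⟩)
  obtain ⟨a, b, hb, rfl⟩ := IsFractionRing.div_surjective (A := MvPolynomial (Fin n) k) x
  exact div_mem (h1 a) (h1 b)

theorem bot_rat : (⊥ : Subfield ℚ) = ⊤ := by
  rw [eq_top_iff]
  intro x _
  rw [← Rat.num_div_den x]
  exact div_mem (intCast_mem _ _) (natCast_mem _ _)

theorem bot_zmod (p : ℕ) [Fact p.Prime] : (⊥ : Subfield (ZMod p)) = ⊤ := by
  rw [eq_top_iff]
  intro x _
  rw [← ZMod.natCast_zmod_val x]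
  exact natCast_mem _ _

theorem generates_rat (n : ℕ) : Generates (tvar n ℚ) := generates_tvar n bot_rat

theorem generates_zmod (n p : ℕ) [Fact p.Prime] : Generates (tvar n (ZMod p)) :=
  generates_tvar n (bot_zmod p)

theorem ft_of_isVar {F : Type} [Field F] {X : Sch F} (h : IsVar X) : FT True X :=
  ⟨h.ft.loc, h.ft.qc, fun _ => h.sep⟩

theorem isVar_of_ft {F : Type} [Field F] {X : Sch F} (h : FT True X) : IsVar X :=
  ⟨⟨h.locallyOfFiniteType, h.quasiCompact⟩, h.separated trivial⟩

theorem isVar_hypS {F : Type} [Field F] {a b c : ℕ} (T : Fin a → Fin b → Fin c → F) :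
    IsVar (hypS T) := isVar_of_ft (ft_aff True)

variable {F : Type} [Field F] {K : Type} [Field K] [Algebra F K]
variable {𝓜 : Type w} [Category.{v} 𝓜] [Abelian 𝓜]

variable (F) in
/-- For every variety `X` over `K` there is a variety `Y` over `F` such that the homology of `X` is a
direct summand of the homology of `Y ⊗_F K` (`K` separable algebraic over `F`: `X = X₀ ⊗ K` for a
variety `X₀` over a finite extension of `F`, take `Y = X₀`, as a variety over `F`; then `X` is an
open and closed subscheme of `Y ⊗_F K`). -/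
def HasModels (h : ℤ → ℤ → SchO K → 𝓜) : Prop :=
  ∀ X : SchO K, IsVar X → ∃ Y : SchO F, IsVar Y ∧ ∀ n s : ℤ,
    ∃ (i : h n s X ⟶ h n s (bcO F K Y)) (p : h n s (bcO F K Y) ⟶ h n s X), i ≫ p = 𝟙 _

/-- The object `S` occurs in the homology of `Y ⊗_F K` for a hypersurface `Y` over `F` with the
equation `T(x, y, z) = 1`, `T` a trilinear form with coefficients `0`, `1`, `t_1, …, t_n`; it is
smooth over `F`. -/
def Trilinear (h : ℤ → ℤ → SchO K → 𝓜) {n : ℕ} (t : Fin n → F) (S : 𝓜) : Prop :=
  ∃ (a b c : ℕ) (T : Fin a → Fin b → Fin c → F), EntriesIn t T ∧ Smooth (hypS T).hom ∧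
    Occurs h S (bcO F K (hypS T))

/-- A simple object occurs in the homology of a variety over `K` if and only if it occurs in the
homology of one of the trilinear hypersurfaces. -/
theorem occurs_iff {h : ℤ → ℤ → SchO K → 𝓜} (hm : HasModels F h)
    (hh : IsBorelMoore fun n s (Y : Sch F) => h n s (bcO F K Y)) {n : ℕ} {t : Fin n → F}
    (ht : Generates t) {S : 𝓜} (hS : Simple S) :
    (∃ X : SchO K, IsVar X ∧ Occurs h S X) ↔ Trilinear h t S := by
  constructor
  · rintro ⟨X, hX, n, s, B, j, q, hj, hq⟩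
    obtain ⟨Y, hY, hYX⟩ := hm X hX
    obtain ⟨i, p, hip⟩ := hYX n s
    have h1 : Mono i := by
      have : Mono (i ≫ p) := by rw [hip]; infer_instance
      exact mono_of_mono i p
    obtain ⟨a, b, c, T, h2, h3⟩ := occurs_trilinear hh hS ht (ft_of_isVar hY)
      ⟨n, s, B, j ≫ i, q, mono_comp _ _, hq⟩
    exact ⟨a, b, c, T, h2, Z125.UN.smooth_hypS T, h3⟩
  · rintro ⟨a, b, c, T, -, -, h3⟩
    exact ⟨_, isVar_bcO K (isVar_hypS T), h3⟩

/-- The case `K = F`. -/
theorem occurs_iff_self {h : ℤ → ℤ → Sch F → 𝓜} (hh : IsBorelMoore h) {n : ℕ} {t : Fin n → F}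
    (ht : Generates t) {S : 𝓜} (hS : Simple S) :
    (∃ X : Sch F, IsVar X ∧ Occurs h S X) ↔
      ∃ (a b c : ℕ) (T : Fin a → Fin b → Fin c → F), EntriesIn t T ∧ Smooth (hypS T).hom ∧
        Occurs h S (hypS T) := by
  constructor
  · rintro ⟨X, hX, h1⟩
    obtain ⟨a, b, c, T, h2, h3⟩ := occurs_trilinear hh hS ht (ft_of_isVar hX) h1
    exact ⟨a, b, c, T, h2, Z125.UN.smooth_hypS T, h3⟩
  · rintro ⟨a, b, c, T, -, -, h3⟩
    exact ⟨_, isVar_hypS T, h3⟩

end Pool.Agent.Q60.CF
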