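import Pool.Agent.Q60.CF.Bc

/-!
# Varieties over number fields and hypersurfaces `T(x, y, z) = 1` with integral coefficients
-/

set_option autoImplicit false

universe v w

namespace Pool.Agent.Q60.CF

open CategoryTheory Limits AlgebraicGeometry Pool.Agent.Y116.UV
open Q54.CU (SchO IsVar)
open Q54.HT (Occurs bcO resO isVar_resO)

variable {K : Type} [Field K] {𝓜 : Type w} [Category.{v} 𝓜]

/-- The homology of a variety `X` over `K` is a direct summand of that of `X ⊗_ℚ K`; this scheme over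
`K` contains `X` as an open and closed subscheme. -/
def HasSummands [CharZero K] (h : ℤ → ℤ → SchO K → 𝓜) : Prop :=
  ∀ X : SchO K, IsVar X → ∀ n s : ℤ, ∃ (i : h n s X ⟶ h n s (bcO ℚ K (resO ℚ K X)))
    (p : h n s (bcO ℚ K (resO ℚ K X)) ⟶ h n s X), i ≫ p = 𝟙 _

/-- The hypersurface `T(x, y, z) = 1` over `K`, `T` a trilinear form with integral coefficients. -/
noncomputable def hyper (K : Type) [Field K] {a b c : ℕ} (T : Fin a → Fin b → Fin c → ℤ) : SchO K :=
  hypS fun i j k => (T i j k : K)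

theorem isVar_hyper {a b c : ℕ} (T : Fin a → Fin b → Fin c → ℤ) : IsVar (hyper K T) :=
  isVar_hypS _

theorem smooth_hyper {a b c : ℕ} (T : Fin a → Fin b → Fin c → ℤ) : Smooth (hyper K T).hom :=
  Z125.UN.smooth_hypS _

section

variable [CharZero K] {h : ℤ → ℤ → SchO K → 𝓜} {S : 𝓜}

lemma occurs_resO (hs : HasSummands h) {X : SchO K} (hX : IsVar X) (h1 : Occurs h S X) :
    Occurs (fun n s (Y : Sch ℚ) => h n s (bcO ℚ K Y)) S (resO ℚ K X) := by
  obtain ⟨n, s, B, j, q, hj, hq⟩ := h1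
  obtain ⟨i, p, hip⟩ := hs X hX n s
  have h1 : Mono i := by
    have : Mono (i ≫ p) := by rw [hip]; infer_instance
    exact mono_of_mono i p
  exact ⟨n, s, B, j ≫ i, q, mono_comp _ _, hq⟩

variable [Abelian 𝓜]

lemma exists_int {a b c : ℕ} (T : Fin a → Fin b → Fin c → ℚ) :
    ∃ (N : ℤ) (T' : Fin a → Fin b → Fin c → ℤ), N ≠ 0 ∧
      ∀ i j k, (T' i j k : ℚ) = N * T i j k := by
  obtain ⟨N, hN⟩ := IsLocalization.exist_integer_multiples_of_finite (nonZeroDivisors ℤ)
    (fun x : Fin a × Fin b × Fin c => T x.1 x.2.1 x.2.2)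
  choose t ht using hN
  refine ⟨N, fun i j k => t (i, j, k), nonZeroDivisors.coe_ne_zero N, fun i j k => ?_⟩
  have h1 := ht (i, j, k)
  rw [zsmul_eq_mul] at h1
  exact h1

lemma occurs_int (hK : IsBorelMoore h) {a b c : ℕ} (T : Fin a → Fin b → Fin c → ℚ)
    (h1 : Occurs (fun n s (Y : Sch ℚ) => h n s (bcO ℚ K Y)) S (hypS T)) :
    ∃ T' : Fin a → Fin b → Fin c → ℤ, Occurs h S (hyper K T') := by
  obtain ⟨N, T', hN, hT'⟩ := exists_int T
  have h2 : Occurs h S (bcO ℚ K (hypS T)) := h1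
  obtain ⟨e⟩ := bc_hypS (K := K) T
  have h3 : Occurs h S (hypS (mapT K T)) := occurs_iso hK (ft_aff True) ⟨e.symm⟩ h2
  have hN' : (N : K) ≠ 0 := Int.cast_ne_zero.2 hN
  let u : Kˣ := Units.mk0 (N : K) hN'
  have h4 : (fun i j k => ((u : K)) * mapT K T i j k) = fun i j k => (T' i j k : K) := by
    funext i j k
    change (N : K) * algebraMap ℚ K (T i j k) = (T' i j k : K)
    have h5 := congrArg (algebraMap ℚ K) (hT' i j k)
    rw [map_mul, map_intCast, map_intCast] at h5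
    exact h5.symm
  have h6 : Occurs h S (hypS fun i j k => ((u : K)) * mapT K T i j k) :=
    occurs_iso hK (ft_aff True) ⟨affIso (hypScale u (mapT K T))⟩ h3
  rw [h4] at h6
  exact ⟨T', h6⟩

/-- Coefficients `0` and `1`. -/
lemma occurs_zero_one (hK : IsBorelMoore h)
    (hQ : IsBorelMoore fun n s (Y : Sch ℚ) => h n s (bcO ℚ K Y)) (hS : Simple S) {Y : Sch ℚ}
    (hY : FT True Y) (h1 : Occurs (fun n s (Y : Sch ℚ) => h n s (bcO ℚ K Y)) S Y) :
    ∃ (a b c : ℕ) (T : Fin a → Fin b → Fin c → ℤ), (∀ i j k, T i j k = 0 ∨ T i j k = 1) ∧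
      Occurs h S (hyper K T) := by
  have h2 : Generates (Fin.elim0 : Fin 0 → ℚ) := by
    rw [Generates, ← bot_rat, eq_bot_iff, Subfield.closure_le]
    rintro _ ⟨l, -⟩
    exact l.elim0
  obtain ⟨a, b, c, T, hT, h3⟩ := occurs_trilinear hQ hS h2 hY h1
  have h4 : Occurs h S (bcO ℚ K (hypS T)) := h3
  obtain ⟨e⟩ := bc_hypS (K := K) T
  have h5 : Occurs h S (hypS (mapT K T)) := occurs_iso hK (ft_aff True) ⟨e.symm⟩ h4
  classical
  refine ⟨a, b, c, fun i j k => if T i j k = 0 then 0 else 1, fun i j k => ?_, ?_⟩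
  · dsimp only
    split_ifs
    · exact Or.inl rfl
    · exact Or.inr rfl
  · have h6 : mapT K T = fun i j k => (((if T i j k = 0 then 0 else 1 : ℤ)) : K) := by
      funext i j k
      rcases hT i j k with h7 | h7 | ⟨l, -⟩
      · rw [mapT, h7, if_pos rfl, map_zero, Int.cast_zero]
      · rw [mapT, h7, if_neg one_ne_zero, map_one, Int.cast_one]
      · exact l.elim0
    rw [h6] at h5
    exact h5

end

end Pool.Agent.Q60.CF
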