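import Pool.Agent.Y116.UV.Main

/-!
# The hypersurface `x y z = 1` is a torus of dimension two
-/

set_option autoImplicit false

open MvPolynomial Pool.Agent.Y116.UV

namespace Pool.Agent.Q60.CF

variable (F : Type) [Field F]

lemma lau_ext {R S : Type} [CommRing R] [CommRing S] {f g : LaurentPolynomial R →+* S}
    (h1 : ∀ a, f (LaurentPolynomial.C a) = g (LaurentPolynomial.C a))
    (h2 : ∀ n : ℤ, f (LaurentPolynomial.T n) = g (LaurentPolynomial.T n)) (p : LaurentPolynomial R) :
    f p = g p := by
  induction p using LaurentPolynomial.induction_on' with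
  | add p q hp hq => rw [map_add, map_add, hp, hq]
  | C_mul_T n a => rw [map_mul, map_mul, h1, h2]

/-- The tensor `1` of format `1 × 1 × 1`. -/
def oneT : Fin 1 → Fin 1 → Fin 1 → F := fun _ _ _ => 1

lemma tri_oneT : tri (oneT F) = X (Sum.inl 0) * X (Sum.inr (Sum.inl 0)) *
    X (Sum.inr (Sum.inr 0)) := by
  simp [tri, oneT]

/-- To the ring of Laurent polynomials. -/
noncomputable def evL : MvPolynomial (Fin 1 ⊕ (Fin 1 ⊕ Fin 1)) F →ₐ[F]
    LaurentPolynomial (LaurentPolynomial F) :=
  aeval (Sum.elim (fun _ => LaurentPolynomial.T 1)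
    (Sum.elim (fun _ => LaurentPolynomial.C (LaurentPolynomial.T 1))
      fun _ => LaurentPolynomial.T (-1) * LaurentPolynomial.C (LaurentPolynomial.T (-1))))

lemma evL_tri : evL F (tri (oneT F) - 1) = 0 := by
  rw [tri_oneT, map_sub, map_mul, map_mul, map_one, evL, aeval_X, aeval_X, aeval_X]
  simp only [Sum.elim_inl, Sum.elim_inr]
  have h1 : (LaurentPolynomial.T 1 * LaurentPolynomial.T (-1) :
      LaurentPolynomial (LaurentPolynomial F)) = 1 := by
    rw [← LaurentPolynomial.T_add]
    exact LaurentPolynomial.T_zero
  have h2 : (LaurentPolynomial.C (LaurentPolynomial.T 1) *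
      LaurentPolynomial.C (LaurentPolynomial.T (-1)) :
      LaurentPolynomial (LaurentPolynomial F)) = 1 := by
    rw [← map_mul, ← LaurentPolynomial.T_add]
    exact map_one _
  linear_combination (LaurentPolynomial.C (LaurentPolynomial.T 1) *
      LaurentPolynomial.C (LaurentPolynomial.T (-1)) :
      LaurentPolynomial (LaurentPolynomial F)) * h1 + h2

/-- To the ring of Laurent polynomials. -/
noncomputable def toLL : Hyp (oneT F) →ₐ[F] LaurentPolynomial (LaurentPolynomial F) :=
  Ideal.Quotient.liftₐ _ (evL F) (by
    intro a ha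
    have h : Ideal.span {tri (oneT F) - 1} ≤ RingHom.ker (evL F) := by
      rw [Ideal.span_le, Set.singleton_subset_iff]
      exact evL_tri F
    exact h ha)

/-- The first coordinate. -/
noncomputable def cx : Hyp (oneT F) := Ideal.Quotient.mk _ (X (Sum.inl 0))

/-- The second coordinate. -/
noncomputable def cy : Hyp (oneT F) := Ideal.Quotient.mk _ (X (Sum.inr (Sum.inl 0)))

/-- The third coordinate. -/
noncomputable def cz : Hyp (oneT F) := Ideal.Quotient.mk _ (X (Sum.inr (Sum.inr 0)))

lemma cxyz : cx F * cy F * cz F = 1 := by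
  have h1 : Ideal.Quotient.mk (Ideal.span {tri (oneT F) - 1}) (tri (oneT F) - 1) = 0 :=
    Ideal.Quotient.eq_zero_iff_mem.2 (Ideal.mem_span_singleton_self _)
  rw [map_sub, sub_eq_zero, map_one] at h1
  have h2 := congrArg (Ideal.Quotient.mk (Ideal.span {tri (oneT F) - 1})) (tri_oneT F)
  rw [h1] at h2
  exact h2.symm

/-- The unit `x`. -/
noncomputable def ux : (Hyp (oneT F))ˣ where
  val := cx F
  inv := cy F * cz F
  val_inv := by rw [← mul_assoc]; exact cxyz F
  inv_val := by rw [mul_comm, ← mul_assoc]; exact cxyz F

/-- The unit `y`. -/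
noncomputable def uy : (Hyp (oneT F))ˣ where
  val := cy F
  inv := cx F * cz F
  val_inv := by
    have h1 := cxyz F
    linear_combination h1
  inv_val := by
    have h1 := cxyz F
    linear_combination h1

/-- From the ring of Laurent polynomials. -/
noncomputable def fromLL : LaurentPolynomial (LaurentPolynomial F) →+* Hyp (oneT F) :=
  LaurentPolynomial.eval₂ (LaurentPolynomial.eval₂ (algebraMap F (Hyp (oneT F))) (uy F)) (ux F)

/-- The homomorphism of rings. -/
noncomputable def tl : Hyp (oneT F) →+* LaurentPolynomial (LaurentPolynomial F) := (toLL F).toRingHom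

lemma toLL_cx : toLL F (cx F) = LaurentPolynomial.T 1 := by
  change evL F (X (Sum.inl 0)) = _
  rw [evL, aeval_X]
  rfl

lemma toLL_cy : toLL F (cy F) = LaurentPolynomial.C (LaurentPolynomial.T 1) := by
  change evL F (X (Sum.inr (Sum.inl 0))) = _
  rw [evL, aeval_X]
  rfl

lemma toLL_cz : toLL F (cz F) =
    LaurentPolynomial.T (-1) * LaurentPolynomial.C (LaurentPolynomial.T (-1)) := by
  change evL F (X (Sum.inr (Sum.inr 0))) = _
  rw [evL, aeval_X]
  rfl

lemma from_to (a : Hyp (oneT F)) : fromLL F (toLL F a) = a := by
  have h : (fromLL F).comp (tl F) = RingHom.id _ := by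
    apply Ideal.Quotient.ringHom_ext
    apply MvPolynomial.ringHom_ext
    · intro r
      change fromLL F (toLL F (algebraMap F (Hyp (oneT F)) r)) = algebraMap F (Hyp (oneT F)) r
      rw [AlgHom.commutes, LaurentPolynomial.algebraMap_apply,
        LaurentPolynomial.algebraMap_apply, fromLL, LaurentPolynomial.eval₂_C,
        LaurentPolynomial.eval₂_C]
      rfl
    · rintro (i | i | i)
      · fin_cases i
        change fromLL F (toLL F (cx F)) = cx F
        rw [toLL_cx, fromLL, LaurentPolynomial.eval₂_T, zpow_one]
        rfl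
      · fin_cases i
        change fromLL F (toLL F (cy F)) = cy F
        rw [toLL_cy, fromLL, LaurentPolynomial.eval₂_C, LaurentPolynomial.eval₂_T, zpow_one]
        rfl
      · fin_cases i
        change fromLL F (toLL F (cz F)) = cz F
        rw [toLL_cz, map_mul, fromLL, LaurentPolynomial.eval₂_C, LaurentPolynomial.eval₂_T,
          LaurentPolynomial.eval₂_T, zpow_neg_one, zpow_neg_one]
        change (cy F * cz F) * (cx F * cz F) = cz F
        have h1 := cxyz F
        linear_combination cz F * h1
  exact congrArg (fun f : Hyp (oneT F) →+* Hyp (oneT F) => f a) h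

lemma val_zpow {A B : Type} [CommRing A] [CommRing B] (f : A →+* B) (u : Aˣ) {v : Bˣ}
    (h : f u = v) (n : ℤ) : f ((u ^ n : Aˣ) : A) = ((v ^ n : Bˣ) : B) := by
  have h1 : Units.map (f : A →* B) u = v := Units.ext h
  rw [← h1, ← map_zpow]
  rfl

lemma to_from (a : LaurentPolynomial (LaurentPolynomial F)) : toLL F (fromLL F a) = a := by
  have hT : ∀ (R : Type) [CommRing R] (n : ℤ), ∀ u : (LaurentPolynomial R)ˣ,
      (u : LaurentPolynomial R) = LaurentPolynomial.T 1 →
      ((u ^ n : (LaurentPolynomial R)ˣ) : LaurentPolynomial R) = LaurentPolynomial.T n := by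
    intro R _ n u hu
    have h1 := LaurentPolynomial.eval₂_T (LaurentPolynomial.C : R →+* LaurentPolynomial R) u n
    rw [← h1]
    have h2 : ∀ p, LaurentPolynomial.eval₂ (LaurentPolynomial.C : R →+* LaurentPolynomial R) u p =
        (RingHom.id _ : LaurentPolynomial R →+* LaurentPolynomial R) p := by
      intro p
      have h4 : ∀ m : ℕ, LaurentPolynomial.eval₂ (LaurentPolynomial.C : R →+* LaurentPolynomial R)
          u (LaurentPolynomial.T m) = LaurentPolynomial.T m := by
        intro m
        rw [LaurentPolynomial.eval₂_T_n, hu, LaurentPolynomial.T_pow, mul_one]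
      refine lau_ext (fun a => LaurentPolynomial.eval₂_C _ _ _) (fun m => ?_) p
      obtain ⟨k, rfl | rfl⟩ := m.eq_nat_or_neg
      · exact h4 k
      · change _ = LaurentPolynomial.T (-(k : ℤ))
        have h5 := h4 k
        have h6 : (LaurentPolynomial.T (k : ℤ) * LaurentPolynomial.T (-(k : ℤ)) :
            LaurentPolynomial R) = 1 := by
          rw [← LaurentPolynomial.T_add, add_neg_cancel]
          exact LaurentPolynomial.T_zero
        have h7 := congrArg (LaurentPolynomial.eval₂
          (LaurentPolynomial.C : R →+* LaurentPolynomial R) u) h6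
        rw [map_mul, map_one, h5] at h7
        have h8 : (LaurentPolynomial.T (-(k : ℤ)) * LaurentPolynomial.T (k : ℤ) :
            LaurentPolynomial R) = 1 := by rw [mul_comm]; exact h6
        calc _ = (LaurentPolynomial.T (-(k : ℤ)) * LaurentPolynomial.T (k : ℤ)) *
              LaurentPolynomial.eval₂ (LaurentPolynomial.C : R →+* LaurentPolynomial R) u
                (LaurentPolynomial.T (-(k : ℤ))) := by rw [h8, one_mul]
        _ = LaurentPolynomial.T (-(k : ℤ)) := by rw [mul_assoc, h7, mul_one]
    exact h2 _
  have h : ∀ a, ((tl F).comp (fromLL F)) a =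
      (RingHom.id (LaurentPolynomial (LaurentPolynomial F))) a := by
    intro a
    refine lau_ext (fun b => ?_) (fun n => ?_) a
    · change toLL F (fromLL F (LaurentPolynomial.C b)) = LaurentPolynomial.C b
      rw [fromLL, LaurentPolynomial.eval₂_C]
      have h3 : ∀ b, ((tl F).comp
          (LaurentPolynomial.eval₂ (algebraMap F (Hyp (oneT F))) (uy F))) b =
          (LaurentPolynomial.C : LaurentPolynomial F →+*
            LaurentPolynomial (LaurentPolynomial F)) b := by
        intro b
        refine lau_ext (fun c => ?_) (fun n => ?_) b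
        · change toLL F (LaurentPolynomial.eval₂ _ (uy F) (LaurentPolynomial.C c)) = _
          rw [LaurentPolynomial.eval₂_C, AlgHom.commutes, LaurentPolynomial.algebraMap_apply,
            LaurentPolynomial.algebraMap_apply]
          rfl
        · change toLL F (LaurentPolynomial.eval₂ _ (uy F) (LaurentPolynomial.T n)) = _
          rw [LaurentPolynomial.eval₂_T]
          obtain ⟨w, hw⟩ := (LaurentPolynomial.isUnit_T (R := F) 1)
          have h4 : (tl F) (uy F) =
              ((Units.map ((LaurentPolynomial.C : LaurentPolynomial F →+*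
                LaurentPolynomial (LaurentPolynomial F)) : _ →* _) w :
                (LaurentPolynomial (LaurentPolynomial F))ˣ) :
                LaurentPolynomial (LaurentPolynomial F)) := by
            change toLL F (cy F) = LaurentPolynomial.C (w : LaurentPolynomial F)
            rw [toLL_cy, hw]
          have h5 := val_zpow (tl F) (uy F) h4 n
          rw [← map_zpow] at h5
          have h6 : ((Units.map ((LaurentPolynomial.C : LaurentPolynomial F →+*
              LaurentPolynomial (LaurentPolynomial F)) : _ →* _) (w ^ n) :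
              (LaurentPolynomial (LaurentPolynomial F))ˣ) :
              LaurentPolynomial (LaurentPolynomial F)) =
              LaurentPolynomial.C (LaurentPolynomial.T n) := by
            change LaurentPolynomial.C ((w ^ n : (LaurentPolynomial F)ˣ) : LaurentPolynomial F) = _
            rw [hT F n w hw]
          rw [h6] at h5
          exact h5
      exact h3 b
    · change toLL F (fromLL F (LaurentPolynomial.T n)) = LaurentPolynomial.T n
      rw [fromLL, LaurentPolynomial.eval₂_T]
      obtain ⟨w, hw⟩ := (LaurentPolynomial.isUnit_T (R := LaurentPolynomial F) 1)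
      have h4 : (tl F) (ux F) = (w : LaurentPolynomial (LaurentPolynomial F)) := by
        change toLL F (cx F) = _
        rw [toLL_cx, hw]
      have h5 := val_zpow (tl F) (ux F) h4 n
      rw [hT _ n w hw] at h5
      exact h5
  exact h a

/-- The hypersurface `x y z = 1` is a torus. -/
noncomputable def hypOne : Hyp (oneT F) ≃ₐ[F] LaurentPolynomial (LaurentPolynomial F) :=
  AlgEquiv.ofBijective (toLL F) ⟨fun a b h => by
    rw [← from_to F a, ← from_to F b, h], fun a => ⟨_, to_from F a⟩⟩

end Pool.Agent.Q60.CF
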