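import Pool.Agent.Q60.CF.Pres
import Pool.Agent.Q60.CF.Two
import Pool.Agent.Y116.UV.Space
import Pool.Agent.Q54.HT.Sq

/-!
# Simple objects which occur in the homology of varieties: trilinear hypersurfaces
-/

set_option autoImplicit false

universe v w

namespace Pool.Agent.Q60.CF

open CategoryTheory Limits AlgebraicGeometry Pool.Agent.Y116.UV
open Q54.HT (LocSeq IsSubquot Occurs)

variable {F : Type} [Field F] {𝓜 : Type w} [Category.{v} 𝓜] [Abelian 𝓜]

/-- The formal properties of Borel-Moore homology which are used. Here `h n s X` stands for the object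
`H_(2 n + s)(X)(-n)` of the abelian category `𝓜`, and `X` for a variety over `F` (a separated scheme of
finite type over `F`).

* `iso`: isomorphic varieties have isomorphic homology;
* `localization`: the exact localization sequences;
* `bundle`: homotopy invariance for the affine bundles `Spec A[w_1, …, w_m] / (∑ f_l w_l - 1) → U` of
  rank `m - 1`, where `U` is the open subscheme of `Spec A` where the `f_l` do not all vanish;
* `torus`: the homology of `Spec A` is a direct summand of that of `Spec A[t, t⁻¹]`. -/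
structure IsBorelMoore (h : ℤ → ℤ → Sch F → 𝓜) : Prop where
  iso : ∀ {X Y : Sch F}, FT True X → Nonempty (X ≅ Y) → ∀ n s, Nonempty (h n s X ≅ h n s Y)
  localization : ∀ {Z X U : Sch F} (i : Z ⟶ X) (j : U ⟶ X), FT True X → IsTriple i j →
    ∃ t : LocSeq h Z X U, t.IsExact
  bundle : ∀ (A : Type) [CommRing A] [Algebra F A] [Algebra.FiniteType F A] (m : ℕ)
    (f : Fin m → A) (U : Sch F) (j : U ⟶ aff F A), IsOpenImmersion j.left →
    Set.range j.left = {x : PrimeSpectrum A | ∃ l, f l ∉ x.asIdeal} →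
    ∀ n s, Nonempty (h n s U ≅ h (n + m - 1) s (aff F (Jou f)))
  torus : ∀ (A : Type) [CommRing A] [Algebra F A] [Algebra.FiniteType F A], ∀ n s,
    ∃ (i : h n s (aff F A) ⟶ h (n + 1) s (aff F (LaurentPolynomial A)))
      (p : h (n + 1) s (aff F (LaurentPolynomial A)) ⟶ h n s (aff F A)), i ≫ p = 𝟙 _

lemma IsSubquot.retract {S A B : 𝓜} (h : IsSubquot S A) {i : A ⟶ B} {p : B ⟶ A}
    (hip : i ≫ p = 𝟙 A) : IsSubquot S B := by
  obtain ⟨C, j, q, hj, hq⟩ := h
  have h1 : Mono i := by
    have : Mono (i ≫ p) := by rw [hip]; infer_instance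
    exact mono_of_mono i p
  exact ⟨C, j ≫ i, q, mono_comp _ _, hq⟩

variable {h : ℤ → ℤ → Sch F → 𝓜} {S : 𝓜}

lemma occurs_iso (hh : IsBorelMoore h) {X Y : Sch F} (hX : FT True X) (e : Nonempty (X ≅ Y))
    (hS : Occurs h S Y) : Occurs h S X := by
  obtain ⟨n, s, h1⟩ := hS
  obtain ⟨e'⟩ := hh.iso hX e n s
  exact ⟨n, s, h1.iso e'.symm⟩

lemma occurs_torus (hh : IsBorelMoore h) (A : Type) [CommRing A] [Algebra F A]
    [Algebra.FiniteType F A] (hS : Occurs h S (aff F A)) :
    Occurs h S (aff F (LaurentPolynomial A)) := by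
  obtain ⟨n, s, h1⟩ := hS
  obtain ⟨i, p, hip⟩ := hh.torus A n s
  exact ⟨n + 1, s, IsSubquot.retract h1 hip⟩

/-- An object which occurs in the homology of the point occurs in that of the torus `x y z = 1`. -/
lemma occurs_one (hh : IsBorelMoore h) (hS : Occurs h S (aff F F)) :
    Occurs h S (aff F (Hyp (oneT F))) := by
  have h1 := occurs_torus hh F hS
  have h2 : Algebra.FiniteType F (LaurentPolynomial F) := ft_laurent F
  have h3 := occurs_torus hh (LaurentPolynomial F) h1
  exact occurs_iso hh (ft_aff True) ⟨(affIso (hypOne F)).symm⟩ h3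

lemma occurs_space (hh : IsBorelMoore h) (n : ℕ)
    (hS : Occurs h S (aff F (MvPolynomial (Fin n) F))) : Occurs h S (aff F F) := by
  have h1 : Occurs h S (aff F (Jou (f1 F n))) :=
    occurs_iso hh (ft_aff True) ⟨(affIso (jouOne F n)).symm⟩ hS
  obtain ⟨a, s, h2⟩ := h1
  obtain ⟨e⟩ := hh.bundle F (n + 1) (f1 F n) (aff F F) (𝟙 _) inferInstance (range_id n) (a - n) s
  have h3 : a - (n : ℤ) + ((n + 1 : ℕ) : ℤ) - 1 = a := by
    push_cast
    ring
  rw [h3] at e
  exact ⟨a - n, s, h2.iso e.symm⟩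

/-- The varieties in whose homology the simple object does not occur. -/
theorem uni_not_occurs (hh : IsBorelMoore h) (hS : Simple S)
    (h1 : ¬ Occurs h S (aff F (Hyp (oneT F)))) : Uni True fun X : Sch F => ¬ Occurs h S X where
  iso hX e h2 h3 := h2 (occurs_iso hh hX e h3)
  total i j hX ht hZ hU := by
    rintro ⟨n, s, h2⟩
    obtain ⟨t, ht⟩ := hh.localization i j hX ht
    rcases h2.exact (ht n s).1 with h3 | h3
    · exact hZ ⟨n, s, h3⟩
    · exact hU ⟨n, s, h3⟩
  opened i j hX ht hZ hX' := by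
    rintro ⟨n, s, h2⟩
    obtain ⟨t, ht⟩ := hh.localization i j hX ht
    have h4 : s = s - 1 + 1 := by ring
    rw [h4] at h2
    rcases h2.exact (ht n (s - 1)).2.1 with h3 | h3
    · exact hX' ⟨n, s - 1 + 1, h3⟩
    · exact hZ ⟨n, s - 1, h3⟩
  closed i j hX ht hX' hU := by
    rintro ⟨n, s, h2⟩
    obtain ⟨t, ht⟩ := hh.localization i j hX ht
    rcases h2.exact (ht n s).2.2 with h3 | h3
    · exact hU ⟨n, s + 1, h3⟩
    · exact hX' ⟨n, s, h3⟩
  space n h2 := h1 (occurs_one hh (occurs_space hh n h2))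
  jouanolou A _ _ _ m f U j hj hr h2 := by
    rintro ⟨n, s, h3⟩
    obtain ⟨e⟩ := hh.bundle A m f U j hj hr n s
    exact h2 ⟨n + m - 1, s, h3.iso e⟩
  torus A _ _ _ h2 h3 := h2 (occurs_torus hh A h3)

/-- A tensor with entries `0`, `1` and `t_1, …, t_n`. -/
def EntriesIn {n : ℕ} (t : Fin n → F) {a b c : ℕ} (T : Fin a → Fin b → Fin c → F) : Prop :=
  ∀ i j k, T i j k = 0 ∨ T i j k = 1 ∨ ∃ l, T i j k = t l

/-- The field is generated by `t_1, …, t_n` over its prime field. -/
def Generates {n : ℕ} (t : Fin n → F) : Prop := Subfield.closure (Set.range t) = ⊤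

/-- **A simple object which occurs in the homology of a variety occurs in the homology of a
trilinear hypersurface.** -/
theorem occurs_trilinear (hh : IsBorelMoore h) (hS : Simple S) {n : ℕ} {t : Fin n → F}
    (ht : Generates t) {X : Sch F} (hX : FT True X) (hXS : Occurs h S X) :
    ∃ (a b c : ℕ) (T : Fin a → Fin b → Fin c → F), EntriesIn t T ∧ Occurs h S (hypS T) := by
  by_contra hcon
  push Not at hcon
  have h1 : ¬ Occurs h S (aff F (Hyp (oneT F))) :=
    hcon 1 1 1 (oneT F) fun _ _ _ => Or.inr (Or.inl rfl)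
  have h2 : Subfield.closure ({0, 1} ∪ Set.range t) = ⊤ := by
    rw [eq_top_iff, ← ht]
    exact Subfield.closure_mono Set.subset_union_right
  have h3 : Presents ({0, 1} ∪ Set.range t : Set F) :=
    presents_gen (Or.inl (Or.inl rfl)) (Or.inl (Or.inr rfl)) h2
  refine universal (uni_not_occurs hh hS h1) (Or.inl (Or.inl rfl)) (Or.inl (Or.inr rfl)) ?_ h3 X
    hX hXS
  intro a b c T hT
  refine hcon a b c T fun i j k => ?_
  rcases hT i j k with (h4 | h4) | ⟨l, h4⟩
  · exact Or.inl h4
  · exact Or.inr (Or.inl h4)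
  · exact Or.inr (Or.inr ⟨l, h4.symm⟩)

end Pool.Agent.Q60.CF
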