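import Pool.Agent.Y116.UV.Pres

/-!
# Presentations with coefficients in a set which generates the field
-/

set_option autoImplicit false
set_option linter.unusedSectionVars false

open MvPolynomial Pool.Agent.Y116.UV

namespace Pool.Agent.Q60.CF

variable {F : Type} [Field F]

/-- The point `y` is defined, as a scheme, by equations with coefficients in `S`. -/
def IsPt (S : Set F) {V : Type} (y : V → F) : Prop :=
  ∃ G : Finset (MvPolynomial V F), (∀ g ∈ G, ∀ m, coeff m g ∈ S) ∧ (∀ g ∈ G, aeval y g = 0) ∧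
    ∀ v, X v - C (y v) ∈ Ideal.span (G : Set (MvPolynomial V F))

variable {S : Set F}

lemma coeff_rename_mem {V W : Type} (h0 : (0 : F) ∈ S) {f : V → W} (hf : Function.Injective f)
    {g : MvPolynomial V F} (hg : ∀ m, coeff m g ∈ S) (m : W →₀ ℕ) : coeff m (rename f g) ∈ S := by
  by_cases h : ∃ u, Finsupp.mapDomain f u = m
  · obtain ⟨u, rfl⟩ := h
    rw [coeff_rename_mapDomain f hf]
    exact hg u
  · rw [coeff_rename_eq_zero]
    · exact h0
    · intro u hu
      exact absurd ⟨u, hu⟩ h

lemma mem_image_rename {V W : Type} {f : V → W} {G : Finset (MvPolynomial V F)}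
    [DecidableEq (MvPolynomial W F)] {p : MvPolynomial V F}
    (hp : p ∈ Ideal.span (G : Set (MvPolynomial V F))) :
    rename f p ∈ Ideal.span ((G.image (rename f) : Finset (MvPolynomial W F)) :
      Set (MvPolynomial W F)) := by
  have h1 := Ideal.mem_map_of_mem (rename f : MvPolynomial V F →ₐ[F] MvPolynomial W F) hp
  rw [Ideal.map_span] at h1
  rw [Finset.coe_image]
  exact h1

lemma IsPt.sum {V W : Type} {y : V → F} {y' : W → F} (h0 : (0 : F) ∈ S) (h : IsPt S y)
    (h' : IsPt S y') : IsPt S (Sum.elim y y') := by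
  classical
  obtain ⟨G, h1, h2, h3⟩ := h
  obtain ⟨G', h1', h2', h3'⟩ := h'
  refine ⟨G.image (rename Sum.inl) ∪ G'.image (rename Sum.inr), ?_, ?_, ?_⟩
  · intro g hg m
    rcases Finset.mem_union.1 hg with hg | hg <;> obtain ⟨g', hg', rfl⟩ := Finset.mem_image.1 hg
    · exact coeff_rename_mem h0 Sum.inl_injective (h1 g' hg') m
    · exact coeff_rename_mem h0 Sum.inr_injective (h1' g' hg') m
  · intro g hg
    rcases Finset.mem_union.1 hg with hg | hg <;> obtain ⟨g', hg', rfl⟩ := Finset.mem_image.1 hg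
    · rw [aeval_rename]
      exact h2 g' hg'
    · rw [aeval_rename]
      exact h2' g' hg'
  · rw [Finset.coe_union]
    rintro (v | v)
    · have h4 := mem_image_rename (f := (Sum.inl : V → V ⊕ W)) (h3 v)
      rw [map_sub, rename_X, rename_C] at h4
      exact Ideal.span_mono Set.subset_union_left h4
    · have h4 := mem_image_rename (f := (Sum.inr : W → V ⊕ W)) (h3' v)
      rw [map_sub, rename_X, rename_C] at h4
      exact Ideal.span_mono Set.subset_union_right h4

/-- The ideal of the point. -/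
noncomputable def ptIdeal {V : Type} (y : V → F) : Ideal (MvPolynomial (Option V) F) :=
  Ideal.span (Set.range fun v => (X (some v) - C (y v) : MvPolynomial (Option V) F))

lemma mem_ptIdeal {V : Type} (y : V → F) (v : V) : X (some v) - C (y v) ∈ ptIdeal y :=
  Ideal.subset_span ⟨v, rfl⟩

lemma IsPt.option {V : Type} {y : V → F} (h0 : (0 : F) ∈ S) (h : IsPt S y)
    {q : MvPolynomial (Option V) F} (hq : ∀ m, coeff m q ∈ S) {a u : F} (ha : a ≠ 0)
    (hqa : q - C a * (X none - C u) ∈ ptIdeal y) : IsPt S (fun o : Option V => o.elim u y) := by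
  classical
  obtain ⟨G, h1, h2, h3⟩ := h
  have hle : ptIdeal y ≤ Ideal.span ((insert q (G.image (rename some)) :
      Finset (MvPolynomial (Option V) F)) : Set (MvPolynomial (Option V) F)) := by
    rw [ptIdeal, Ideal.span_le]
    rintro _ ⟨v, rfl⟩
    have h4 := mem_image_rename (f := (some : V → Option V)) (h3 v)
    rw [map_sub, rename_X, rename_C] at h4
    refine Ideal.span_mono ?_ h4
    rw [Finset.coe_insert]
    exact Set.subset_insert _ _
  have hle2 : ptIdeal y ≤ RingHom.ker (aeval (fun o : Option V => o.elim u y) :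
      MvPolynomial (Option V) F →ₐ[F] F) := by
    rw [ptIdeal, Ideal.span_le]
    rintro _ ⟨v, rfl⟩
    change aeval _ (X (some v) - C (y v)) = 0
    rw [map_sub, aeval_X, aeval_C]
    exact sub_self _
  refine ⟨insert q (G.image (rename some)), ?_, ?_, ?_⟩
  · intro g hg m
    rcases Finset.mem_insert.1 hg with rfl | hg
    · exact hq m
    · obtain ⟨g', hg', rfl⟩ := Finset.mem_image.1 hg
      exact coeff_rename_mem h0 (Option.some_injective V) (h1 g' hg') m
  · intro g hg
    rcases Finset.mem_insert.1 hg with rfl | hg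
    · have h4 : aeval (fun o : Option V => o.elim u y) (g - C a * (X none - C u)) = 0 := hle2 hqa
      rw [map_sub, map_mul, map_sub, aeval_X, aeval_C, aeval_C, sub_eq_zero] at h4
      rw [h4]
      change _ * (u - u) = 0
      rw [sub_self, mul_zero]
    · obtain ⟨g', hg', rfl⟩ := Finset.mem_image.1 hg
      rw [aeval_rename]
      exact h2 g' hg'
  · rintro (_ | v)
    · have h4 := Ideal.sub_mem _ (Ideal.subset_span (Finset.mem_coe.2 (Finset.mem_insert_self q
        (G.image (rename some))))) (hle hqa)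
      rw [sub_sub_cancel] at h4
      have h5 := Ideal.mul_mem_left _ (C a⁻¹) h4
      rw [← mul_assoc, ← C_mul, inv_mul_cancel₀ ha, C_1, one_mul] at h5
      exact h5
    · exact hle (mem_ptIdeal y v)

/-- The element `c` is a coordinate of a point defined by equations with coefficients in `S`. -/
def Dfn (S : Set F) (c : F) : Prop :=
  ∃ (V : Type) (_ : Fintype V) (y : V → F), IsPt S y ∧ ∃ v, y v = c

section closure

variable (h0 : (0 : F) ∈ S) (h1 : (1 : F) ∈ S)

include h0 h1

lemma ms_mem {V : Type} (T : Finset (V →₀ ℕ)) (m : V →₀ ℕ) : coeff m (ms F T) ∈ S := by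
  rcases coeff_ms_mem (R := F) T m with h | h
  · rw [h]
    exact h0
  · rw [h]
    exact h1

lemma isPt_empty : IsPt S (fun v : Empty => (v.elim : F)) :=
  ⟨∅, fun g hg => absurd hg (Finset.notMem_empty g), fun g hg => absurd hg (Finset.notMem_empty g),
    fun v => v.elim⟩

lemma Dfn.step {V : Type} [Fintype V] {y : V → F} (h : IsPt S y) {q : MvPolynomial (Option V) F}
    (hq : ∀ m, coeff m q ∈ S) {a u : F} (ha : a ≠ 0)
    (hqa : q - C a * (X none - C u) ∈ ptIdeal y) : Dfn S u :=
  ⟨Option V, inferInstance, _, h.option h0 hq ha hqa, none, rfl⟩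

lemma Dfn.neg {c : F} (h : Dfn S c) : Dfn S (-c) := by
  classical
  obtain ⟨V, _, y, hy, v, rfl⟩ := h
  have hne : (Finsupp.single (none : Option V) 1 : Option V →₀ ℕ) ≠ Finsupp.single (some v) 1 := by
    intro h2
    have := Finsupp.single_left_injective one_ne_zero h2
    simp at this
  refine Dfn.step h0 h1 hy (q := ms F {Finsupp.single none 1, Finsupp.single (some v) 1})
    (ms_mem h0 h1 _) one_ne_zero ?_
  have e1 : ms F {Finsupp.single (none : Option V) 1, Finsupp.single (some v) 1} =
      X none + X (some v) := by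
    rw [ms, Finset.sum_pair hne]
    rfl
  have e2 : (X none + X (some v) - C 1 * (X none - C (-y v)) : MvPolynomial (Option V) F) =
      X (some v) - C (y v) := by
    rw [C_1, one_mul, C_neg]
    ring
  rw [e1, e2]
  exact mem_ptIdeal y v

lemma Dfn.gen {c : F} (h : c ∈ S) : Dfn S c := by
  classical
  have h2 : Dfn S (-c) := by
    refine Dfn.step h0 h1 (isPt_empty h0 h1) (q := X none + C c) ?_ one_ne_zero ?_
    · intro m
      rw [coeff_add, coeff_X, coeff_C]
      by_cases hm : m = 0
      · subst hm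
        rw [if_neg (by simp), if_pos rfl, zero_add]
        exact h
      · rw [if_neg (Ne.symm hm), add_zero]
        split_ifs
        · exact h1
        · exact h0
    · have e : (X none + C c - C 1 * (X none - C (-c)) : MvPolynomial (Option Empty) F) = 0 := by
        rw [C_1, one_mul, C_neg]
        ring
      rw [e]
      exact Ideal.zero_mem _
  have h3 := Dfn.neg h0 h1 h2
  rwa [neg_neg] at h3

lemma Dfn.add {c c' : F} (h : Dfn S c) (h' : Dfn S c') : Dfn S (c + c') := by
  classical
  obtain ⟨V, _, y, hy, v, rfl⟩ := h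
  obtain ⟨W, _, y', hy', w, rfl⟩ := h'
  have hp := hy.sum h0 hy'
  have hne1 : (Finsupp.single (none : Option (V ⊕ W)) 1 : Option (V ⊕ W) →₀ ℕ) ≠
      Finsupp.single (some (Sum.inl v)) 1 := by
    intro h2
    have := Finsupp.single_left_injective one_ne_zero h2
    simp at this
  have hne2 : (Finsupp.single (none : Option (V ⊕ W)) 1 : Option (V ⊕ W) →₀ ℕ) ≠
      Finsupp.single (some (Sum.inr w)) 1 := by
    intro h2
    have := Finsupp.single_left_injective one_ne_zero h2
    simp at this
  have hne3 : (Finsupp.single (some (Sum.inl v)) 1 : Option (V ⊕ W) →₀ ℕ) ≠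
      Finsupp.single (some (Sum.inr w)) 1 := by
    intro h2
    have := Finsupp.single_left_injective one_ne_zero h2
    simp at this
  have h2 : Dfn S (-(y v + y' w)) := by
    refine Dfn.step h0 h1 hp (q := ms F {Finsupp.single none 1,
      Finsupp.single (some (Sum.inl v)) 1, Finsupp.single (some (Sum.inr w)) 1})
      (ms_mem h0 h1 _) one_ne_zero ?_
    have e1 : ms F {Finsupp.single (none : Option (V ⊕ W)) 1,
        Finsupp.single (some (Sum.inl v)) 1, Finsupp.single (some (Sum.inr w)) 1} =
        X none + (X (some (Sum.inl v)) + X (some (Sum.inr w))) := by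
      rw [ms, Finset.sum_insert, Finset.sum_pair hne3]
      · rfl
      · rw [Finset.mem_insert, Finset.mem_singleton, not_or]
        exact ⟨hne1, hne2⟩
    have e2 : (X none + (X (some (Sum.inl v)) + X (some (Sum.inr w))) -
        C 1 * (X none - C (-(y v + y' w))) : MvPolynomial (Option (V ⊕ W)) F) =
        (X (some (Sum.inl v)) - C (Sum.elim y y' (Sum.inl v))) +
          (X (some (Sum.inr w)) - C (Sum.elim y y' (Sum.inr w))) := by
      rw [C_1, one_mul, C_neg, C_add, Sum.elim_inl, Sum.elim_inr]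
      ring
    rw [e1, e2]
    exact Ideal.add_mem _ (mem_ptIdeal _ _) (mem_ptIdeal _ _)
  have h3 := Dfn.neg h0 h1 h2
  rwa [neg_neg] at h3

lemma Dfn.mul {c c' : F} (h : Dfn S c) (h' : Dfn S c') : Dfn S (c * c') := by
  classical
  obtain ⟨V, _, y, hy, v, rfl⟩ := h
  obtain ⟨W, _, y', hy', w, rfl⟩ := h'
  have hp := hy.sum h0 hy'
  have hne1 : (Finsupp.single (none : Option (V ⊕ W)) 1 : Option (V ⊕ W) →₀ ℕ) ≠
      Finsupp.single (some (Sum.inl v)) 1 + Finsupp.single (some (Sum.inr w)) 1 := by
    intro h2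
    have h3 := congrArg (fun f : Option (V ⊕ W) →₀ ℕ => f none) h2
    simp at h3
  have h2 : Dfn S (-(y v * y' w)) := by
    refine Dfn.step h0 h1 hp (q := ms F {Finsupp.single none 1,
      Finsupp.single (some (Sum.inl v)) 1 + Finsupp.single (some (Sum.inr w)) 1})
      (ms_mem h0 h1 _) one_ne_zero ?_
    have e1 : ms F {Finsupp.single (none : Option (V ⊕ W)) 1,
        Finsupp.single (some (Sum.inl v)) 1 + Finsupp.single (some (Sum.inr w)) 1} =
        X none + X (some (Sum.inl v)) * X (some (Sum.inr w)) := by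
      rw [ms, Finset.sum_pair hne1, X, X, X, monomial_mul, one_mul]
    have e2 : (X none + X (some (Sum.inl v)) * X (some (Sum.inr w)) -
        C 1 * (X none - C (-(y v * y' w))) : MvPolynomial (Option (V ⊕ W)) F) =
        X (some (Sum.inr w)) * (X (some (Sum.inl v)) - C (Sum.elim y y' (Sum.inl v))) +
          C (y v) * (X (some (Sum.inr w)) - C (Sum.elim y y' (Sum.inr w))) := by
      rw [C_1, one_mul, C_neg, C_mul, Sum.elim_inl, Sum.elim_inr]
      ring
    rw [e1, e2]
    exact Ideal.add_mem _ (Ideal.mul_mem_left _ _ (mem_ptIdeal _ _))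
      (Ideal.mul_mem_left _ _ (mem_ptIdeal _ _))
  have h3 := Dfn.neg h0 h1 h2
  rwa [neg_neg] at h3

lemma Dfn.inv {c : F} (h : Dfn S c) : Dfn S c⁻¹ := by
  classical
  by_cases hc : c = 0
  · rw [hc, inv_zero]
    exact Dfn.gen h0 h1 h0
  obtain ⟨V, _, y, hy, v, rfl⟩ := h
  obtain ⟨W, _, y', hy', w, hw⟩ := Dfn.neg h0 h1 (Dfn.gen h0 h1 h1)
  have hp := hy.sum h0 hy'
  have hne1 : (Finsupp.single (none : Option (V ⊕ W)) 1 + Finsupp.single (some (Sum.inl v)) 1 :
      Option (V ⊕ W) →₀ ℕ) ≠ Finsupp.single (some (Sum.inr w)) 1 := by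
    intro h2
    have h3 := congrArg (fun f : Option (V ⊕ W) →₀ ℕ => f none) h2
    simp at h3
  refine Dfn.step h0 h1 hp (q := ms F {Finsupp.single none 1 +
    Finsupp.single (some (Sum.inl v)) 1, Finsupp.single (some (Sum.inr w)) 1})
    (ms_mem h0 h1 _) hc ?_
  have e1 : ms F {Finsupp.single (none : Option (V ⊕ W)) 1 +
      Finsupp.single (some (Sum.inl v)) 1, Finsupp.single (some (Sum.inr w)) 1} =
      X none * X (some (Sum.inl v)) + X (some (Sum.inr w)) := by
    rw [ms, Finset.sum_pair hne1, X, X, X, monomial_mul, one_mul]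
  have e2 : (X none * X (some (Sum.inl v)) + X (some (Sum.inr w)) -
      C (y v) * (X none - C (y v)⁻¹) : MvPolynomial (Option (V ⊕ W)) F) =
      X none * (X (some (Sum.inl v)) - C (Sum.elim y y' (Sum.inl v))) +
        (X (some (Sum.inr w)) - C (Sum.elim y y' (Sum.inr w))) := by
    have e3 : (C (y v) * C (y v)⁻¹ : MvPolynomial (Option (V ⊕ W)) F) = 1 := by
      rw [← C_mul, mul_inv_cancel₀ hc, C_1]
    rw [Sum.elim_inl, Sum.elim_inr, hw, C_neg, C_1]
    linear_combination e3
  rw [e1, e2]
  exact Ideal.add_mem _ (Ideal.mul_mem_left _ _ (mem_ptIdeal _ _)) (mem_ptIdeal _ _)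

/-- All elements are coordinates of points defined over `S`, if `S` generates the field. -/
theorem dfn_all (hS : Subfield.closure S = ⊤) (c : F) : Dfn S c := by
  let L : Subfield F :=
    { carrier := {c | Dfn S c}
      mul_mem' := fun h h' => Dfn.mul h0 h1 h h'
      one_mem' := Dfn.gen h0 h1 h1
      add_mem' := fun h h' => Dfn.add h0 h1 h h'
      zero_mem' := Dfn.gen h0 h1 h0
      neg_mem' := fun h => Dfn.neg h0 h1 h
      inv_mem' := fun _ h => Dfn.inv h0 h1 h }
  have h2 : Subfield.closure S ≤ L := Subfield.closure_le.2 fun c hc => Dfn.gen h0 h1 hc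
  rw [hS] at h2
  exact h2 trivial

omit h1 in
lemma exists_pt (hall : ∀ c, Dfn S c) (T : Finset F) :
    ∃ (V : Type) (_ : Fintype V) (y : V → F), IsPt S y ∧ ∀ c ∈ T, ∃ v, y v = c := by
  classical
  induction T using Finset.induction_on with
  | empty =>
    exact ⟨Empty, inferInstance, fun v => v.elim, ⟨∅, fun g hg => absurd hg (Finset.notMem_empty g),
      fun g hg => absurd hg (Finset.notMem_empty g), fun v => v.elim⟩,
      fun c hc => absurd hc (Finset.notMem_empty c)⟩
  | insert a T _ ih =>
    obtain ⟨V, _, y, hy, h2⟩ := ih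
    obtain ⟨W, _, y', hy', w, hw⟩ := hall a
    refine ⟨V ⊕ W, inferInstance, Sum.elim y y', hy.sum h0 hy', fun c hc => ?_⟩
    rcases Finset.mem_insert.1 hc with rfl | hc
    · exact ⟨Sum.inr w, hw⟩
    · obtain ⟨v, hv⟩ := h2 c hc
      exact ⟨Sum.inl v, hv⟩

end closure

section presentation

variable {n : ℕ} {V : Type} (y : V → F) (z : MvPolynomial (Fin n) F → (Fin n →₀ ℕ) → V)

/-- The substitution of the coordinates of the point. -/
noncomputable def sbP (n : ℕ) : MvPolynomial (Fin n ⊕ V) F →ₐ[F] MvPolynomial (Fin n) F :=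
  aeval (Sum.elim X fun v => C (y v))

/-- The exponent of the monomial in which the coefficient is replaced by a variable. -/
noncomputable def exP (g : MvPolynomial (Fin n) F) (m : Fin n →₀ ℕ) : Fin n ⊕ V →₀ ℕ :=
  Finsupp.single (Sum.inr (z g m)) 1 + m.mapDomain Sum.inl

open Classical in
/-- The polynomial `g` with the coefficients replaced by variables. -/
noncomputable def rgP (g : MvPolynomial (Fin n) F) : MvPolynomial (Fin n ⊕ V) F :=
  ms F (g.support.image (exP z g))

lemma exP_inj (g : MvPolynomial (Fin n) F) : Function.Injective (exP z g) := by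
  classical
  intro m m' h
  ext i
  have h1 := congrArg (fun f : Fin n ⊕ V →₀ ℕ => f (Sum.inl i)) h
  simp only [exP, Finsupp.add_apply] at h1
  rw [Finsupp.single_eq_of_ne (by simp), Finsupp.single_eq_of_ne (by simp),
    Finsupp.mapDomain_apply Sum.inl_injective, Finsupp.mapDomain_apply Sum.inl_injective] at h1
  simpa using h1

lemma sbP_rename_inl (p : MvPolynomial (Fin n) F) : sbP y n (rename Sum.inl p) = p := by
  rw [sbP, aeval_rename]
  exact aeval_X_left_apply p

lemma sbP_rename_inr (p : MvPolynomial V F) : sbP y n (rename Sum.inr p) = C (aeval y p) := by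
  rw [sbP, aeval_rename]
  exact aeval_algebraMap_apply (MvPolynomial (Fin n) F) y p

lemma sbP_rgP {g : MvPolynomial (Fin n) F} (hz : ∀ m ∈ g.support, y (z g m) = coeff m g) :
    sbP y n (rgP z g) = g := by
  classical
  rw [rgP, ms, map_sum, Finset.sum_image fun m _ m' _ h => exP_inj z g h]
  conv_rhs => rw [g.as_sum]
  refine Finset.sum_congr rfl fun m hm => ?_
  have h1 : (monomial (exP z g m) (1 : F) : MvPolynomial (Fin n ⊕ V) F) =
      X (Sum.inr (z g m)) * rename Sum.inl (monomial m 1) := by
    rw [rename_monomial, X, monomial_mul, one_mul]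
    rfl
  rw [h1, map_mul, sbP_rename_inl, sbP, aeval_X, Sum.elim_inr, hz m hm, C_mul_monomial, mul_one]

end presentation

/-- **Presentations with coefficients in a set that generates the field.** -/
theorem presents_gen {S : Set F} (h0 : (0 : F) ∈ S) (h1 : (1 : F) ∈ S)
    (hS : Subfield.closure S = ⊤) : Presents S := by
  classical
  apply presents_of
  intro A _ _ _
  obtain ⟨n, φ, G, hs, hK, -⟩ := presents_univ (R := F) A
  obtain ⟨V, _, y, ⟨E, hE1, hE2, hE3⟩, hy⟩ := exists_pt h0 (dfn_all h0 h1 hS)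
    (insert 0 (G.biUnion fun g => g.support.image fun m => coeff m g))
  obtain ⟨v0, -⟩ := hy 0 (Finset.mem_insert_self _ _)
  have hz : ∀ (g : MvPolynomial (Fin n) F) (m : Fin n →₀ ℕ), ∃ v : V,
      g ∈ G → m ∈ g.support → y v = coeff m g := by
    intro g m
    by_cases h : g ∈ G ∧ m ∈ g.support
    · obtain ⟨v, hv⟩ := hy (coeff m g) (Finset.mem_insert_of_mem (Finset.mem_biUnion.2
        ⟨g, h.1, Finset.mem_image_of_mem _ h.2⟩))
      exact ⟨v, fun _ _ => hv⟩
    · exact ⟨v0, fun h2 h3 => absurd ⟨h2, h3⟩ h⟩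
  choose z hz using hz
  have hzz : ∀ g ∈ G, ∀ m ∈ g.support, y (z g m) = coeff m g := fun g hg m hm => hz g m hg hm
  obtain ⟨R, hR⟩ : ∃ R : Finset (MvPolynomial (Fin n ⊕ V) F),
      R = E.image (rename Sum.inr) ∪ G.image (rgP z) := ⟨_, rfl⟩
  have hI : ∀ v : V, X (Sum.inr v) - C (y v) ∈ Ideal.span (R : Set (MvPolynomial (Fin n ⊕ V) F)) := by
    intro v
    have h4 := mem_image_rename (f := (Sum.inr : V → Fin n ⊕ V)) (hE3 v)
    rw [map_sub, rename_X, rename_C] at h4
    refine Ideal.span_mono ?_ h4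
    rw [hR, Finset.coe_union]
    exact Set.subset_union_left
  have hmk : ∀ p : MvPolynomial (Fin n ⊕ V) F,
      Ideal.Quotient.mkₐ F (Ideal.span (R : Set (MvPolynomial (Fin n ⊕ V) F)))
        (rename Sum.inl (sbP y n p)) =
      Ideal.Quotient.mkₐ F (Ideal.span (R : Set (MvPolynomial (Fin n ⊕ V) F))) p := by
    intro p
    have h : ((Ideal.Quotient.mkₐ F (Ideal.span (R : Set (MvPolynomial (Fin n ⊕ V) F)))).comp
        (rename Sum.inl)).comp (sbP y n) =
        Ideal.Quotient.mkₐ F (Ideal.span (R : Set (MvPolynomial (Fin n ⊕ V) F))) := by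
      apply MvPolynomial.algHom_ext
      rintro (i | v)
      · change Ideal.Quotient.mkₐ F _ (rename Sum.inl (sbP y n (X (Sum.inl i)))) = _
        rw [sbP, aeval_X, Sum.elim_inl, rename_X]
      · change Ideal.Quotient.mkₐ F _ (rename Sum.inl (sbP y n (X (Sum.inr v)))) = _
        rw [sbP, aeval_X, Sum.elim_inr, rename_C]
        exact (Ideal.Quotient.eq.2 (hI v)).symm
    exact congrArg (fun f : MvPolynomial (Fin n ⊕ V) F →ₐ[F] _ => f p) h
  refine ⟨Fin n ⊕ V, inferInstance, φ.comp (sbP y n), R, ?_, ?_, ?_⟩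
  · intro a
    obtain ⟨p, rfl⟩ := hs a
    refine ⟨rename Sum.inl p, ?_⟩
    change φ (sbP y n (rename Sum.inl p)) = φ p
    rw [sbP_rename_inl]
  · apply le_antisymm
    · intro p hp
      have h2 : sbP y n p ∈ Ideal.span (G : Set (MvPolynomial (Fin n) F)) := by
        rw [← hK]
        exact hp
      have h3 : Ideal.span (G : Set (MvPolynomial (Fin n) F)) ≤ RingHom.ker
          ((Ideal.Quotient.mkₐ F (Ideal.span (R : Set (MvPolynomial (Fin n ⊕ V) F)))).comp
            (rename Sum.inl)) := by
        rw [Ideal.span_le]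
        intro g hg
        change Ideal.Quotient.mkₐ F _ (rename Sum.inl g) = 0
        have h4 := hmk (rgP z g)
        rw [sbP_rgP y z (hzz g hg)] at h4
        rw [h4]
        refine Ideal.Quotient.eq_zero_iff_mem.2 (Ideal.subset_span ?_)
        rw [hR, Finset.coe_union]
        exact Or.inr (Finset.mem_coe.2 (Finset.mem_image_of_mem _ hg))
      have h5 := h3 h2
      change Ideal.Quotient.mkₐ F _ (rename Sum.inl (sbP y n p)) = 0 at h5
      rw [hmk] at h5
      exact Ideal.Quotient.eq_zero_iff_mem.1 h5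
    · rw [Ideal.span_le]
      intro r hr
      rw [hR, Finset.mem_coe, Finset.mem_union] at hr
      change φ (sbP y n r) = 0
      rcases hr with hr | hr <;> obtain ⟨g, hg, rfl⟩ := Finset.mem_image.1 hr
      · rw [sbP_rename_inr, hE2 g hg, C_0, map_zero]
      · rw [sbP_rgP y z (hzz g hg)]
        have h2 : g ∈ RingHom.ker φ := by
          rw [hK]
          exact Ideal.subset_span hg
        exact h2
  · intro r hr m
    rw [hR, Finset.mem_union] at hr
    rcases hr with hr | hr <;> obtain ⟨g, hg, rfl⟩ := Finset.mem_image.1 hr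
    · exact coeff_rename_mem h0 Sum.inr_injective (hE1 g hg) m
    · exact ms_mem h0 h1 _ m

end Pool.Agent.Q60.CF
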