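import Pool.Agent.Q60.CF.Dim

/-!
# Scaling of the hypersurfaces `T(x, y, z) = 1`
-/

set_option autoImplicit false

namespace Pool.Agent.Q60.CF

open Pool.Agent.Y116.UV MvPolynomial

section scale

variable {R : Type} [CommRing R] {α β γ : Type} [Fintype α] [Fintype β] [Fintype γ]

/-- Multiplication of the first block of variables by a unit. -/
noncomputable def scaleE (u : Rˣ) : MvPolynomial (α ⊕ (β ⊕ γ)) R ≃ₐ[R] MvPolynomial (α ⊕ (β ⊕ γ)) R :=
  AlgEquiv.ofAlgHom
    (aeval (Sum.elim (fun i => C (u : R) * X (Sum.inl i)) fun j => X (Sum.inr j)))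
    (aeval (Sum.elim (fun i => C ((u⁻¹ : Rˣ) : R) * X (Sum.inl i)) fun j => X (Sum.inr j)))
    (by
      apply MvPolynomial.algHom_ext
      rintro (i | j)
      · simp only [AlgHom.comp_apply, aeval_X, Sum.elim_inl, map_mul, AlgHom.id_apply]
        rw [← algebraMap_eq, AlgHom.commutes, algebraMap_eq, ← mul_assoc, ← C_mul, Units.inv_mul,
          C_1, one_mul]
      · simp only [AlgHom.comp_apply, aeval_X, Sum.elim_inr, AlgHom.id_apply])
    (by
      apply MvPolynomial.algHom_ext
      rintro (i | j)
      · simp only [AlgHom.comp_apply, aeval_X, Sum.elim_inl, map_mul, AlgHom.id_apply]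
        rw [← algebraMap_eq, AlgHom.commutes, algebraMap_eq, ← mul_assoc, ← C_mul, Units.mul_inv,
          C_1, one_mul]
      · simp only [AlgHom.comp_apply, aeval_X, Sum.elim_inr, AlgHom.id_apply])

/-- Scaling of the tensor. -/
noncomputable def hypScale (u : Rˣ) (T : α → β → γ → R) :
    Hyp T ≃ₐ[R] Hyp fun i j k => (u : R) * T i j k :=
  Ideal.quotientEquivAlg _ _ (scaleE u) (by
    have h1 : ∀ i : α, scaleE (R := R) (α := α) (β := β) (γ := γ) u (X (Sum.inl i)) =
        C (u : R) * X (Sum.inl i) := fun i => by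
      change aeval _ (X (Sum.inl i)) = _
      rw [aeval_X, Sum.elim_inl]
    have h2 : ∀ j : β ⊕ γ, scaleE (R := R) (α := α) (β := β) (γ := γ) u (X (Sum.inr j)) =
        X (Sum.inr j) := fun j => by
      change aeval _ (X (Sum.inr j)) = _
      rw [aeval_X, Sum.elim_inr]
    have h3 : ∀ r : R, scaleE (R := R) (α := α) (β := β) (γ := γ) u (C r) = C r := fun r => by
      rw [← algebraMap_eq, AlgEquiv.commutes]
    rw [Ideal.map_span, Set.image_singleton]
    congr 2
    simp only [RingHom.coe_coe, map_sub, map_one, tri, map_sum, map_mul, h1, h2, h3]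
    congr 1
    apply Finset.sum_congr rfl
    intro i _
    apply Finset.sum_congr rfl
    intro j _
    apply Finset.sum_congr rfl
    intro k _
    ring)

end scale

end Pool.Agent.Q60.CF
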